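import Pool.Agent.H27.Domino

namespace Pool.Agent.Results.MP_073e7c_an.StrongIrr
open Finset Pool.Agent.H27.Domino

/-- The letter `(i, b)` stands for the vector `e_i` if `b` is true and for `-e_i` otherwise. -/
def vec {d : ℕ} (a : Fin d × Bool) : Fin d → ℤ :=
  if a.2 then Pi.single a.1 1 else -Pi.single a.1 1

/-- The space `X_d` of domino tilings of `ℝ^d`. -/
def Dom (d : ℕ) : Set ((Fin d → ℤ) → Fin d × Bool) :=
  {x | ∀ v, vec (x (v + vec (x v))) = -vec (x v)}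

/-- A closed shift-invariant set of configurations. -/
def IsSubshift {d : ℕ} (X : Set ((Fin d → ℤ) → Fin d × Bool)) : Prop :=
  IsClosed X ∧ ∀ u, ∀ x ∈ X, (fun v => x (u + v)) ∈ X

/-- Strong irreducibility, for the sup-distance on `ℤ^d`. -/
def StronglyIrreducible {d : ℕ} (X : Set ((Fin d → ℤ) → Fin d × Bool)) : Prop :=
  ∃ k : ℕ, ∀ x ∈ X, ∀ y ∈ X, ∀ A B : Set (Fin d → ℤ), (∀ a ∈ A, ∀ b ∈ B, (k : ℝ) ≤ dist a b) →
    ∃ z ∈ X, Set.EqOn z x A ∧ Set.EqOn z y B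

variable {n : ℕ}

lemma ve (s : Dir) : vec (emb s : Fin (n + 3) × Bool) = io (cd s 0) (cd s 1) (cd s 2) := by
  obtain ⟨i, b⟩ := s
  have e0 : ∀ h, Fin.castLE h (0 : Fin 3) = (0 : Fin (n + 3)) := fun _ => rfl
  have e1 : ∀ h, Fin.castLE h (1 : Fin 3) = (1 : Fin (n + 3)) := fun _ => rfl
  have e2 : ∀ h, Fin.castLE h (2 : Fin 3) = (2 : Fin (n + 3)) := fun _ => rfl
  have n1 : (2 : Fin (n + 3)) ≠ 0 := fun h => by cases h
  have n2 : (2 : Fin (n + 3)) ≠ 1 := fun h => by cases h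
  ext k
  fin_cases i <;> cases b <;> simp [vec, emb, io, cd, Pi.single_apply, e0, e1, e2] <;>
    (try split_ifs) <;> first | rfl | (intros; subst_vars; simp_all) | simp_all

lemma vn (s : Dir) : vec (emb (s.1, !s.2) : Fin (n + 3) × Bool) = -vec (emb s) := by
  obtain ⟨i, b⟩ := s
  cases b <;> simp [vec, emb]

lemma til (θ : V n → ZMod 2) (h : Sep (fl θ)) (x) (hx : Rel x (U θ) (fl θ)) : x ∈ Dom (n + 3) := by
  have g : ∀ (p : V n) (i j : Fin 2) (t : Fin 3), p + io i j (-t) + io (-i) (-j) t = p :=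
    fun p i j t => by simp [ioa, ioz]
  have dn : ∀ p, U θ (p + io 0 0 1) = true → (∀ i j t, t ≠ 2 → ¬Gov (fl θ) p i j t) →
      x p = emb (2, true) := fun p a b => by
    by_cases e : ∃ i j t, Gov (fl θ) p i j t
    · obtain ⟨i, j, t, e⟩ := e
      obtain rfl : t = 2 := by_contra fun k => b i j t k e
      have := hx.1 _ e i j 2
      rw [g] at this
      rw [this, ((bal θ h _ e i j 2).2.1 rfl).2 (by simpa [ioa] using a)]
    · push Not at e
      rw [stat θ p fun i j => e i j 0] at a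
      rw [hx.2 p e, a]
  have up : ∀ p, U θ p = true → (∀ i j t, t ≠ 0 → ¬Gov (fl θ) p i j t) →
      x p = emb (2, false) := fun p a b => by
    by_cases e : ∃ i j t, Gov (fl θ) p i j t
    · obtain ⟨i, j, t, e⟩ := e
      obtain rfl : t = 0 := by_contra fun k => b i j t k e
      have := hx.1 _ e i j 0
      rw [g] at this
      rw [this, ((bal θ h _ e i j 0).1 rfl).2 (by simpa [ioa, ioz] using a)]
    · push Not at e
      rw [hx.2 p e, a]; rfl
  have dn' : ∀ p, x p = emb (2, false) → U θ p = true → (∀ i j t, t ≠ 0 → ¬Gov (fl θ) p i j t) →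
      vec (x (p + vec (x p))) = -vec (x p) := fun p a b c => by
    rw [a, ve, dn _ (by simpa [cd, ioa, ioz] using b) fun i j t k e => ?_, ← ve]
    · exact vn (2, false)
    refine c i j (t + 1) (by fin_cases t <;> simp at k ⊢) ?_
    fin_cases t <;> simp at k <;> simpa [Gov, cd, ioa] using e
  have up' : ∀ p, x p = emb (2, true) → U θ (p + io 0 0 1) = true →
      (∀ i j t, t ≠ 2 → ¬Gov (fl θ) p i j t) → vec (x (p + vec (x p))) = -vec (x p) :=
    fun p a b c => by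
    rw [a, ve, up _ (by simpa [cd] using b) fun i j t k e => ?_, ← ve]
    · exact vn (2, true)
    refine c i j (t - 1) (by fin_cases t <;> simp at k ⊢) ?_
    fin_cases t <;> simp at k <;> simpa [Gov, cd, ioa] using e
  intro p
  by_cases e : ∃ i j t, Gov (fl θ) p i j t
  · obtain ⟨i, j, t, e⟩ := e
    have a := hx.1 _ e i j t
    rw [g] at a
    obtain ⟨b1, b2, ⟨rfl, b⟩ | ⟨rfl, b⟩ | ⟨i', j', t', c1, c2, c3, c4⟩⟩ := bal θ h _ e i j t
    · exact dn' p (by rw [a, b]) (by simpa [ioa, ioz] using (b1 rfl).1 b)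
        fun _ _ _ k f => k (uniq h f e).2.2
    · exact up' p (by rw [a, b]) (by simpa [ioa] using (b2 rfl).1 b)
        fun _ _ _ k f => k (uniq h f e).2.2
    · have := hx.1 _ e i' j' t'
      rw [c4, c1, c2, c3, ← ioa, g, ← ve, ← a] at this
      rw [this, vn, ← a]
  · push Not at e
    have a := hx.2 p e
    cases k : U θ p
    · exact up' p (by rw [a, k]; rfl) (by rw [stat θ p fun i j => e i j 0, k]; rfl)
        fun i j t _ => e i j t
    · exact dn' p (by rw [a, k]; rfl) k fun i j t _ => e i j t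

def Adj (p q : V n) : Prop := ∃ a b c, q = p + io a b c ∧ ¬(a = 0 ∧ b = 0 ∧ c = 0) ∧
  ((|a| ≤ 1 ∧ |b| ≤ 1 ∧ |c| ≤ 2) ∨ (a = 0 ∧ b = 0 ∧ |c| ≤ 50))

lemma asy {p q : V n} : Adj p q → Adj q p := fun ⟨a, b, c, e, h1, h2⟩ =>
  ⟨-a, -b, -c, by simp [e, ioa, ioz], by simpa using h1, by simpa using h2⟩

lemma adi {p q : V n} : Adj p q → dist q p ≤ 50 := fun ⟨a, b, c, e, _, h⟩ => by
  rw [e]
  rcases h with h | ⟨rfl, rfl, h⟩
  · exact iod p a b c 50 (by omega) (by omega) (by omega)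
  · exact iod p 0 0 c 50 (by simp) (by simp) h

def Ind (S : Set (V n)) : Prop := ∀ p ∈ S, ∀ q ∈ S, ¬Adj p q
def MIS (S : Set (V n)) : Prop := Ind S ∧ ∀ p ∉ S, ∃ q ∈ S, Adj p q

lemma mis {T : Set (V n)} (h : Ind T) : ∃ S, T ⊆ S ∧ MIS S := by
  obtain ⟨S, a, b⟩ := zorn_subset_nonempty {S | Ind S} (fun c hc k _ => ⟨⋃₀ c,
    fun p ⟨s, hs, hp⟩ q ⟨t, ht, hq⟩ => (k.total hs ht).elim (fun l => hc ht p (l hp) q hq)
      fun l => hc hs p hp q (l hq), fun s => Set.subset_sUnion_of_mem⟩) T h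
  refine ⟨S, a, b.1, fun p hp => by_contra fun e => hp (b.2 (y := insert p S) ?_
    (Set.subset_insert _ _) (Set.mem_insert _ _))⟩
  push Not at e
  rintro q (rfl | hq) r (rfl | hr)
  · rintro ⟨a, b, c, e, h, -⟩
    exact h ⟨by simpa [io0] using congrFun e 0, by simpa [io1] using congrFun e 1,
      by simpa [io2] using congrFun e 2⟩
  · exact e r hr
  · exact fun k => e q hq (asy k)
  · exact b.1 q hq r hr

lemma syn {S : Set (V n)} (h : MIS S) (p : V n) : ∃ m : ℕ, m < 150 ∧ p + io 0 0 (-(m + 1)) ∈ S := by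
  by_contra! e
  have e' : ∀ c : ℤ, -150 ≤ c → c ≤ -1 → p + io 0 0 c ∉ S := fun c a b => by
    have := e (-c - 1).toNat (by omega)
    rwa [show -(((-c - 1).toNat : ℤ) + 1) = c by omega] at this
  have : ∀ k : ℕ, ∃ a b c : ℤ, k < 10 → |a| ≤ 1 ∧ |b| ≤ 1 ∧ |c| ≤ 2 ∧
      p + io a b (-(52 + 5 * k) + c) ∈ S := fun k => by
    by_cases hk : k < 10
    · obtain ⟨q, hq, a, b, c, rfl, -, f | ⟨rfl, rfl, f⟩⟩ :=
        h.2 _ (e' (-(52 + 5 * k)) (by omega) (by omega))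
      · exact ⟨a, b, c, fun _ => ⟨f.1, f.2.1, f.2.2, by simpa [ioa] using hq⟩⟩
      · rw [abs_le] at f
        exact (e' (-(52 + 5 * k) + c) (by omega) (by omega) (by simpa [ioa] using hq)).elim
    · exact ⟨0, 0, 0, by omega⟩
  choose a b c f using this
  obtain ⟨k, hk, l, hl, ne, q⟩ := exists_ne_map_eq_of_card_lt_of_maps_to (s := range 10)
    (t := Icc (-1 : ℤ) 1 ×ˢ Icc (-1 : ℤ) 1) (by simp) (f := fun k => (a k, b k)) fun k hk => by
      have := f k (by simpa using hk)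
      simpa only [coe_product, Set.mem_prod, coe_Icc, Set.mem_Icc, ← abs_le] using
        ⟨this.1, this.2.1⟩
  rw [mem_range] at hk hl
  obtain ⟨-, -, c1, d1⟩ := f k hk
  obtain ⟨-, -, c2, d2⟩ := f l hl
  rw [Prod.mk.injEq] at q
  rw [abs_le] at c1 c2
  exact h.1 _ d1 _ d2 ⟨0, 0, 5 * k - 5 * l + c l - c k, by rw [ioa, q.1, q.2]; congr 2 <;> ring,
    by omega, Or.inr ⟨rfl, rfl, by rw [abs_le]; omega⟩⟩

def X0 (n : ℕ) : Set (V n → Fin (n + 3) × Bool) :=
  {x | ∃ S θ, MIS S ∧ (∀ p, fl θ p → p ∈ S) ∧ Rel x (U θ) (fl θ)}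

lemma sep {S : Set (V n)} {θ} (h : MIS S) (k : ∀ p, fl θ p → p ∈ S) : Sep (fl θ) :=
  fun q a b c ha hb hc e f => by_contra fun g =>
    h.1 _ (k _ e) _ (k _ f) ⟨a, b, c, rfl, g, Or.inl ⟨ha, hb, hc⟩⟩

lemma loc {x y : V n → Fin (n + 3) × Bool} {θ η} (hx : Rel x (U θ) (fl θ)) (hy : Rel y (U η) (fl η))
    (p : V n) (h : ∀ q, dist q p ≤ 4 → θ q = η q) : x p = y p := by
  have h' : ∀ a b c : ℤ, -4 ≤ a → a ≤ 4 → -4 ≤ b → b ≤ 4 → -4 ≤ c → c ≤ 4 →
      θ (p + io a b c) = η (p + io a b c) := fun a b c _ _ _ _ _ _ =>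
    h _ (iod p a b c 4 (by rw [abs_le]; omega) (by rw [abs_le]; omega) (by rw [abs_le]; omega))
  have u : ∀ a b c : ℤ, -4 ≤ a → a ≤ 3 → -4 ≤ b → b ≤ 3 → -4 ≤ c → c ≤ 4 →
      U θ (p + io a b c) = U η (p + io a b c) := fun a b c _ _ _ _ _ _ => by
    simp (disch := omega) only [U, eh, ew, ioa, h']
  have f : ∀ i j t, Gov (fl θ) p i j t ↔ Gov (fl η) p i j t := fun i j t => by
    simp (disch := omega) only [Gov, fl, ioa, h']
  by_cases e : ∃ i j t, Gov (fl θ) p i j t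
  · obtain ⟨i, j, t, e⟩ := e
    have a := hx.1 _ e i j t
    have b := hy.1 _ ((f i j t).1 e) i j t
    simp (disch := omega) only [ioa, u] at a b
    simp only [add_neg_cancel, neg_add_cancel, ioz] at a b
    rw [a, b]
  · push Not at e
    have := u 0 0 0 (by simp) (by simp) (by simp) (by simp) (by simp) (by simp)
    rw [ioz] at this
    rw [hx.2 p e, hy.2 p fun i j t k => e i j t ((f i j t).2 k), this]

lemma shf (u : V n) (x) (hx : x ∈ X0 n) : (fun v => x (u + v)) ∈ X0 n := by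
  obtain ⟨S, θ, h1, h2, h3⟩ := hx
  let η : V n → ZMod 2 := fun p => θ (u + p) + (u 2 * p 0 + (u 0 + u 2) * p 1 : ℤ)
  have a : ∀ p, eh η p = eh θ (u + p) := fun p => by simp [eh, η, add_assoc, io0, io1]; ring
  have b : ∀ p, ew η p = ew θ (u + p) := fun p => by simp [ew, η, add_assoc, io0, io1]; ring
  have c : ∀ p, U η p = U θ (u + p) := fun p => by simp only [U, a, b, add_assoc]
  have d : ∀ p, fl η p ↔ fl θ (u + p) := fun p => by simp [fl, η, add_assoc, io0, io1]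
  have e : ∀ p q : V n, Adj (u + p) (u + q) ↔ Adj p q := fun p q => by simp [Adj, add_assoc]
  refine ⟨{p | u + p ∈ S}, η, ⟨fun p hp q hq k => h1.1 _ hp _ hq ((e _ _).2 k), fun p hp => ?_⟩,
    fun p hp => h2 _ ((d p).1 hp), fun q hq i j t => ?_, fun p hp => ?_⟩
  · obtain ⟨q, hq, k⟩ := h1.2 _ hp
    exact ⟨q - u, by simpa using hq, (e _ _).1 (by simpa using k)⟩
  · simpa only [c, add_assoc] using h3.1 _ ((d q).1 hq) i j t
  · simpa only [c] using h3.2 (u + p) fun i j t k => hp i j t (by simpa only [Gov, d, add_assoc] using k)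

lemma glue (x) (hx : x ∈ X0 n) (y) (hy : y ∈ X0 n) (A B : Set (V n))
    (h : ∀ a ∈ A, ∀ b ∈ B, ((500 : ℕ) : ℝ) ≤ dist a b) :
    ∃ z ∈ X0 n, Set.EqOn z x A ∧ Set.EqOn z y B := by
  classical
  obtain ⟨S1, θ1, a1, a2, a3⟩ := hx
  obtain ⟨S2, θ2, b1, b2, b3⟩ := hy
  let N := fun (A : Set (V n)) => {p | ∃ a ∈ A, dist p a ≤ 210}
  have far : ∀ p ∈ N A, ∀ q ∈ N B, ¬dist p q ≤ 50 := fun p ⟨a, ha, k⟩ q ⟨b, hb, l⟩ m => by
    have := h a ha b hb
    have := dist_triangle4 a p q b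
    rw [dist_comm] at k
    push_cast at *; linarith
  obtain ⟨S, s1, s2⟩ := mis (T := S1 ∩ N A ∪ S2 ∩ N B) (by
    rintro p (hp | hp) q (hq | hq)
    · exact a1.1 _ hp.1 _ hq.1
    · exact fun k => far _ hp.2 _ hq.2 (adi (asy k))
    · exact fun k => far _ hq.2 _ hp.2 (adi k)
    · exact b1.1 _ hp.1 _ hq.1)
  have ex : ∀ p, ∃ m : ℕ, p + io 0 0 (-(m + 1)) ∈ S := fun p => (syn s2 p).imp fun _ => And.right
  let ω : V n → ZMod 2 := fun r => if r ∈ N A then θ1 r else θ2 r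
  let θ : V n → ZMod 2 := fun p => ω (p + io 0 0 (-Nat.find (ex p)))
  have f : ∀ p, fl θ p → p ∈ S := fun p hp => by_contra fun k => hp (by
    have : Nat.find (ex (p + io 0 0 1)) = Nat.find (ex p) + 1 := by
      refine (Nat.find_eq_iff _).2 ⟨by simpa [ioa] using Nat.find_spec (ex p), fun j hj => ?_⟩
      cases j with
      | zero => simpa [ioa, ioz] using k
      | succ j => simpa [ioa] using Nat.find_min (ex p) (Nat.lt_of_succ_lt_succ hj)
    show ω (_ + io 0 0 (-(Nat.find _ : ℕ))) = ω _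
    rw [this, ioa]; simp)
  have key : ∀ (C T : Set (V n)) (η : V n → ZMod 2), MIS T → (∀ p, fl η p → p ∈ T) →
      T ∩ N C ⊆ S → ∀ a ∈ C, (∀ r, dist r a ≤ 160 → ω r = η r) → ∀ q, dist q a ≤ 4 → θ q = η q :=
    fun C T η t1 t2 t3 a ha w q hq => by
    obtain ⟨m, m1, m2⟩ := syn s2 q
    have m3 := Nat.find_min' (ex q) m2
    have di : ∀ j : ℕ, j ≤ 150 → dist (q + io 0 0 (-j)) a ≤ 160 := fun j hj => by
      have := iod q 0 0 (-j) 150 (by simp) (by simp) (by rw [abs_le]; omega)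
      have := dist_triangle (q + io 0 0 (-j)) q a
      push_cast at *; linarith
    have : ∀ j : ℕ, j ≤ Nat.find (ex q) → η (q + io 0 0 (-j)) = η q := fun j => by
      induction j with
      | zero => simp [ioz]
      | succ j ih =>
        intro hj
        rw [← ih (by omega)]
        by_contra e
        have := t2 (q + io 0 0 (-(j + 1 : ℕ))) (by simpa [fl, ioa, eq_comm] using e)
        exact Nat.find_min (ex q) hj (t3 ⟨this, a, ha, (di (j + 1) (by omega)).trans (by norm_num)⟩)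
    exact (w _ (di _ (by omega))).trans (this _ le_rfl)
  obtain ⟨z, hz⟩ := exi (U θ) (sep s2 f)
  refine ⟨z, ⟨S, θ, s2, f, hz⟩, fun a ha => loc hz a3 a (key A S1 θ1 a1 a2 (Set.subset_union_left.trans
    s1) a ha fun r hr => if_pos ⟨a, ha, by linarith⟩), fun b hb => loc hz b3 b (key B S2 θ2 b1 b2
    (Set.subset_union_right.trans s1) b hb fun r hr => if_neg fun k => far r k r ⟨b, hb, by linarith⟩
      (by simp))⟩

theorem result (d : ℕ) (hd : 3 ≤ d) :
    ∃ X ⊆ Dom d, X.Nonempty ∧ IsSubshift X ∧ StronglyIrreducible X := by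
  obtain ⟨n, rfl⟩ : ∃ n, d = n + 3 := ⟨d - 3, by omega⟩
  refine ⟨closure (X0 n), closure_minimal (fun x ⟨S, θ, a, b, c⟩ => til θ (sep a b) x c) ?_, ?_,
    ⟨isClosed_closure, fun u x hx => map_mem_closure (f := fun x v => x (u + v)) (by fun_prop) hx
      fun x hx => shf u x hx⟩, 500, fun x hx y hy A B h => ?_⟩
  · have : Dom (n + 3) = ⋂ v, ⋂ a, (fun x => (x v, x (v + vec a))) ⁻¹'
        {w | w.1 = a → vec w.2 = -vec a} := by ext x; simp [Dom]
    rw [this]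
    exact isClosed_iInter fun v => isClosed_iInter fun a => (isClosed_discrete _).preimage
      (by fun_prop)
  · obtain ⟨S, -, h⟩ := mis (n := n) (T := ∅) (by simp [Ind])
    have f : ∀ p, fl (0 : V n → ZMod 2) p → p ∈ S := by simp [fl]
    obtain ⟨x, hx⟩ := exi (U 0) (sep h f)
    exact ⟨x, subset_closure ⟨S, 0, h, f, hx⟩⟩
  have c : IsClosed {w : (_ × _) × _ | w.2 ∈ closure (X0 n) ∧ Set.EqOn w.2 w.1.1 A ∧
      Set.EqOn w.2 w.1.2 B} := by
    simp only [Set.EqOn, Set.setOf_and, Set.setOf_forall]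
    refine (isClosed_closure.preimage continuous_snd).inter (IsClosed.inter ?_ ?_) <;>
      exact isClosed_iInter fun _ => isClosed_iInter fun _ => isClosed_eq (by fun_prop) (by fun_prop)
  obtain ⟨⟨_, z⟩, hz, rfl⟩ := closure_minimal (s := X0 n ×ˢ X0 n) (fun w hw => by
    obtain ⟨z, a, b⟩ := glue _ hw.1 _ hw.2 A B h
    exact ⟨(w, z), ⟨subset_closure a, b⟩, rfl⟩) (isClosedMap_fst_of_compactSpace _ c)
    (show (x, y) ∈ _ by rw [closure_prod_eq]; exact ⟨hx, hy⟩)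
  exact ⟨z, hz⟩

end Pool.Agent.Results.MP_073e7c_an.StrongIrr
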